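import Pool.Agent.P.MP_3ef9ff_gt.Fwd
import Pool.Agent.P.MP_3ef9ff_gt.Back

/-!
A continuum is continuously ray extendable exactly when it is an amalgamation base.
-/

set_option autoImplicit false

namespace Pool.Agent.Results.MP_3ef9ff_gt.ExactClass

open Pool.Agent.P.MP_3ef9ff_gt

theorem result (M : Type) [MetricSpace M] [CompactSpace M] [ConnectedSpace M] :
    RayExt M ↔ Base M :=
  ⟨base_of_rayExt, rayExt_of_base⟩

end Pool.Agent.Results.MP_3ef9ff_gt.ExactClass
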