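import Pool.Agent.P.MP_3ef9ff_gt.Sol
import Pool.Agent.P.MP_3ef9ff_gt.Back

/-!
Every solenoid is continuously ray extendable although it has positive surjective span.
-/

set_option autoImplicit false

namespace Pool.Agent.Results.MP_3ef9ff_gt.Solenoids

open Pool.Agent.P.MP_3ef9ff_gt

theorem result (p : ℕ → ℕ) (hp : ∀ n, 2 ≤ p n) :
    ∃ (M : Type) (_ : MetricSpace M) (_ : CompactSpace M) (_ : ConnectedSpace M),
      Nonempty (M ≃ₜ {z : ℕ → UnitAddCircle // ∀ n, p n • z (n + 1) = z n}) ∧ RayExt M ∧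
      ∃ Z : Set (M × M), IsCompact Z ∧ IsConnected Z ∧ Prod.fst '' Z = Set.univ ∧
        Prod.snd '' Z = Set.univ ∧ ∀ q ∈ Z, q.1 ≠ q.2 := by
  have := compactSpace_sol p
  have : TopologicalSpace.MetrizableSpace (Sol p) :=
    Topology.IsEmbedding.subtypeVal.metrizableSpace
  letI : MetricSpace (Sol p) := TopologicalSpace.metrizableSpaceMetric (Sol p)
  exact ⟨Sol p, inferInstance, compactSpace_sol p, connectedSpace_sol hp, ⟨Homeomorph.refl _⟩,
    rayExt_of_base (base_sol hp (Homeomorph.refl _)), dodge_sol hp⟩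

end Pool.Agent.Results.MP_3ef9ff_gt.Solenoids
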