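import Pool.Agent.P.MP_3ef9ff_gt.WC3

/-!
A continuum has span zero exactly when it is weakly chainable and all its subcontinua are
continuously ray extendable.
-/

set_option autoImplicit false

namespace Pool.Agent.Results.MP_3ef9ff_gt.SpanZeroIff

open Pool.Agent.P.MP_3ef9ff_gt

theorem result (M : Type) [MetricSpace M] [CompactSpace M] [ConnectedSpace M] :
    (∀ Z : Set (M × M), IsCompact Z → IsConnected Z →
      Prod.fst '' Z = Prod.snd '' Z → ∃ p ∈ Z, p.1 = p.2) ↔
    (WeaklyChainable M ∧ ∀ N : Set M, IsCompact N → IsConnected N → RayExt N) :=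
  spanZero_iff

end Pool.Agent.Results.MP_3ef9ff_gt.SpanZeroIff
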